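import Mathlib

set_option autoImplicit false

/-!
# Zeta functions of sequences of rational numbers: definitions
-/

open Polynomial

namespace Pool.Agent.R911.Zd

/-- The power series `exp (∑ N k * t ^ k / k)`, the sum over `k ≥ 1`, is the rational function
`P / Q`, with `P` and `Q` of constant term `1`: the logarithmic derivative of `P / Q` is the power
series with coefficients `N (k + 1)`. -/
def IsZeta (N : ℕ → ℚ) (P Q : ℚ[X]) : Prop :=
  P.coeff 0 = 1 ∧ Q.coeff 0 = 1 ∧
    ((derivative P * Q - P * derivative Q : ℚ[X]) : PowerSeries ℚ) =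
      (PowerSeries.mk fun k => N (k + 1)) * ((P * Q : ℚ[X]) : PowerSeries ℚ)

/-- The total degree of the zeta function: the least number `deg P + deg Q` such that
`exp (∑ N k * t ^ k / k) = P / Q`, that is, the sum of the numbers of zeros and of poles, with
multiplicities. -/
noncomputable def zetaDegree (N : ℕ → ℚ) : ℕ :=
  sInf {d | ∃ P Q : ℚ[X], IsZeta N P Q ∧ P.natDegree + Q.natDegree = d}

end Pool.Agent.R911.Zd
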