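import Pool.Agent.Y112.KD.Kill
import Pool.Agent.R911.Zd.Defs

set_option autoImplicit false

/-!
# Zeta functions of endomorphisms: definitions
-/

open CategoryTheory Limits MonoidalCategory
open Pool.Agent.Y112.SR Pool.Agent.Y112.KD

namespace Pool.Agent.R911.Zd

universe v u

variable {C : Type u} [Category.{v} C] [MonoidalCategory C] [SymmetricCategory C]
  [Preadditive C] [Linear ℚ C] [MonoidalPreadditive C] [MonoidalLinear ℚ C]
  [RightRigidCategory C]

/-- The iterates `f ≫ f ≫ ⋯ ≫ f` of an endomorphism. -/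
def iter {M : C} (f : M ⟶ M) : ℕ → (M ⟶ M)
  | 0 => 𝟙 M
  | k + 1 => iter f k ≫ f

/-- The trace of the `k`-th iterate of an endomorphism `f` of `M`, a rational number. -/
noncomputable def traceOfPower (hU : UnitQ C) {M : C} (f : M ⟶ M) (k : ℕ) : ℚ :=
  trq hU M (iter f k)

/-- The total degree of the zeta function `exp (∑ tr (f ^ k) * t ^ k / k)` of an endomorphism. -/
noncomputable def zdeg (hU : UnitQ C) {M : C} (f : M ⟶ M) : ℕ :=
  zetaDegree (traceOfPower hU f)

end Pool.Agent.R911.Zd
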