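import Pool.Agent.R911.Zd.Zeta

set_option autoImplicit false
set_option linter.unusedSectionVars false

/-!
# Zeta functions of operators which commute with an involution
-/

open Polynomial

namespace Pool.Agent.R911.Zd

variable {K : Type*} [Field K] [CharZero K] {V : Type*} [AddCommGroup V] [Module K V]

/-- The projector to the even part. -/
noncomputable def eP (p : Module.End K V) : Module.End K V := (2 : K)⁻¹ • (1 + p)

/-- The projector to the odd part. -/
noncomputable def eM (p : Module.End K V) : Module.End K V := (2 : K)⁻¹ • (1 - p)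

/-- The even part. -/
def VP (p : Module.End K V) : Submodule K V := LinearMap.ker (p - 1)

/-- The odd part. -/
def VM (p : Module.End K V) : Submodule K V := LinearMap.ker (p + 1)

variable {p : Module.End K V}

lemma mem_VP {v : V} : v ∈ VP p ↔ p v = v := by
  rw [VP, LinearMap.mem_ker, LinearMap.sub_apply, Module.End.one_apply, sub_eq_zero]

lemma mem_VM {v : V} : v ∈ VM p ↔ p v = -v := by
  rw [VM, LinearMap.mem_ker, LinearMap.add_apply, Module.End.one_apply, add_eq_zero_iff_eq_neg]

lemma eP_add_eM (v : V) : eP p v + eM p v = v := by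
  simp only [eP, eM, LinearMap.smul_apply, LinearMap.add_apply, LinearMap.sub_apply,
    Module.End.one_apply]
  rw [← smul_add, show v + p v + (v - p v) = (2 : K) • v by rw [two_smul]; abel, smul_smul,
    inv_mul_cancel₀ two_ne_zero, one_smul]

lemma eP_sub_eM : eP p - eM p = p := by
  ext v
  simp only [eP, eM, LinearMap.smul_apply, LinearMap.add_apply, LinearMap.sub_apply,
    Module.End.one_apply]
  rw [← smul_sub, show v + p v - (v - p v) = (2 : K) • p v by rw [two_smul]; abel, smul_smul,
    inv_mul_cancel₀ two_ne_zero, one_smul]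

lemma eP_mem (hp : p * p = 1) (v : V) : eP p v ∈ VP p := by
  rw [mem_VP]
  have h1 : p (p v) = v := LinearMap.congr_fun hp v
  simp only [eP, LinearMap.smul_apply, LinearMap.add_apply, Module.End.one_apply, map_smul,
    map_add, h1]
  rw [add_comm]

lemma eM_mem (hp : p * p = 1) (v : V) : eM p v ∈ VM p := by
  rw [mem_VM]
  have h1 : p (p v) = v := LinearMap.congr_fun hp v
  simp only [eM, LinearMap.smul_apply, LinearMap.sub_apply, Module.End.one_apply, map_smul,
    map_sub, h1]
  rw [← smul_neg, neg_sub]

lemma eP_of_mem {v : V} (h : v ∈ VP p) : eP p v = v := by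
  rw [mem_VP] at h
  simp only [eP, LinearMap.smul_apply, LinearMap.add_apply, Module.End.one_apply, h]
  rw [← two_smul K v, smul_smul, inv_mul_cancel₀ two_ne_zero, one_smul]

lemma eM_of_mem {v : V} (h : v ∈ VM p) : eM p v = v := by
  rw [mem_VM] at h
  simp only [eM, LinearMap.smul_apply, LinearMap.sub_apply, Module.End.one_apply, h]
  rw [sub_neg_eq_add, ← two_smul K v, smul_smul, inv_mul_cancel₀ two_ne_zero, one_smul]

lemma eP_of_memM {v : V} (h : v ∈ VM p) : eP p v = 0 := by
  rw [mem_VM] at h
  simp only [eP, LinearMap.smul_apply, LinearMap.add_apply, Module.End.one_apply, h]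
  rw [add_neg_cancel, smul_zero]

lemma isCompl (hp : p * p = 1) : IsCompl (VP p) (VM p) := by
  constructor
  · rw [Submodule.disjoint_def]
    intro v h1 h2
    rw [← eP_of_mem h1, eP_of_memM h2]
  · rw [codisjoint_iff, eq_top_iff]
    intro v _
    rw [← eP_add_eM (p := p) v]
    exact Submodule.add_mem_sup (eP_mem hp v) (eM_mem hp v)

lemma finrank_add [Module.Finite K V] (hp : p * p = 1) :
    Module.finrank K (VP p) + Module.finrank K (VM p) = Module.finrank K V :=
  Submodule.finrank_add_eq_of_isCompl (isCompl hp)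

variable {A : Module.End K V}

lemma mapsP (h : A * p = p * A) : ∀ v ∈ VP p, A v ∈ VP p := by
  intro v hv
  rw [mem_VP] at hv ⊢
  have h1 : A (p v) = p (A v) := LinearMap.congr_fun h v
  rw [← h1, hv]

lemma mapsM (h : A * p = p * A) : ∀ v ∈ VM p, A v ∈ VM p := by
  intro v hv
  rw [mem_VM] at hv ⊢
  have h1 : A (p v) = p (A v) := LinearMap.congr_fun h v
  rw [← h1, hv, map_neg]

/-- The even part of an operator. -/
noncomputable def AP (h : A * p = p * A) : Module.End K (VP p) := A.restrict (mapsP h)

/-- The odd part of an operator. -/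
noncomputable def AM (h : A * p = p * A) : Module.End K (VM p) := A.restrict (mapsM h)

lemma AP_aeval (h : A * p = p * A) (f : K[X]) (v : VP p) :
    ((aeval (AP h) f v : VP p) : V) = aeval A f (v : V) := by
  induction f using Polynomial.induction_on' generalizing v with
  | add f g hf hg => rw [map_add, map_add, LinearMap.add_apply, LinearMap.add_apply,
      Submodule.coe_add, hf, hg]
  | monomial n a =>
    rw [aeval_monomial, aeval_monomial, Module.End.mul_apply, Module.End.mul_apply,
      Module.algebraMap_end_apply, Module.algebraMap_end_apply, Submodule.coe_smul]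
    congr 1
    induction n generalizing v with
    | zero => rw [pow_zero, pow_zero]; rfl
    | succ n ih =>
      rw [pow_succ, pow_succ, Module.End.mul_apply, Module.End.mul_apply, ih]
      rfl

lemma AM_aeval (h : A * p = p * A) (f : K[X]) (v : VM p) :
    ((aeval (AM h) f v : VM p) : V) = aeval A f (v : V) := by
  induction f using Polynomial.induction_on' generalizing v with
  | add f g hf hg => rw [map_add, map_add, LinearMap.add_apply, LinearMap.add_apply,
      Submodule.coe_add, hf, hg]
  | monomial n a =>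
    rw [aeval_monomial, aeval_monomial, Module.End.mul_apply, Module.End.mul_apply,
      Module.algebraMap_end_apply, Module.algebraMap_end_apply, Submodule.coe_smul]
    congr 1
    induction n generalizing v with
    | zero => rw [pow_zero, pow_zero]; rfl
    | succ n ih =>
      rw [pow_succ, pow_succ, Module.End.mul_apply, Module.End.mul_apply, ih]
      rfl

lemma AP_pow (h : A * p = p * A) (n : ℕ) (v : VP p) :
    (((AP h ^ n) v : VP p) : V) = (A ^ n) (v : V) := by
  have := AP_aeval h (X ^ n) v
  simpa using this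

lemma AM_pow (h : A * p = p * A) (n : ℕ) (v : VM p) :
    (((AM h ^ n) v : VM p) : V) = (A ^ n) (v : V) := by
  have := AM_aeval h (X ^ n) v
  simpa using this

lemma trace_AP [Module.Finite K V] (hp : p * p = 1) (h : A * p = p * A) (n : ℕ) :
    LinearMap.trace K (VP p) (AP h ^ n) = LinearMap.trace K V (A ^ n * eP p) := by
  have hm : ∀ v, (A ^ n * eP p) v ∈ VP p := by
    intro v
    rw [Module.End.mul_apply]
    have h1 := AP_pow h n ⟨eP p v, eP_mem hp v⟩
    rw [← h1]
    exact ((AP h ^ n) ⟨eP p v, eP_mem hp v⟩).2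
  rw [← LinearMap.trace_restrict_eq_of_forall_mem (VP p) (A ^ n * eP p) hm]
  congr 1
  ext v
  rw [AP_pow, LinearMap.coe_restrict_apply, Module.End.mul_apply, eP_of_mem v.2]

lemma trace_AM [Module.Finite K V] (hp : p * p = 1) (h : A * p = p * A) (n : ℕ) :
    LinearMap.trace K (VM p) (AM h ^ n) = LinearMap.trace K V (A ^ n * eM p) := by
  have hm : ∀ v, (A ^ n * eM p) v ∈ VM p := by
    intro v
    rw [Module.End.mul_apply]
    have h1 := AM_pow h n ⟨eM p v, eM_mem hp v⟩
    rw [← h1]
    exact ((AM h ^ n) ⟨eM p v, eM_mem hp v⟩).2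
  rw [← LinearMap.trace_restrict_eq_of_forall_mem (VM p) (A ^ n * eM p) hm]
  congr 1
  ext v
  rw [AM_pow, LinearMap.coe_restrict_apply, Module.End.mul_apply, eM_of_mem v.2]

lemma coeff_zero_rev [Module.Finite K V] (B : Module.End K V) :
    (B.charpoly.reverse).coeff 0 = 1 := by
  rw [coeff_zero_reverse]
  exact LinearMap.charpoly_monic B

/-- The reversed characteristic polynomials of the odd and of the even part. -/
theorem logRel [Module.Finite K V] (hp : p * p = 1) (h : A * p = p * A) {N : PowerSeries K}
    (hN : ∀ k, PowerSeries.coeff k N = LinearMap.trace K V (A ^ (k + 1) * p)) :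
    LogRel N (AM h).charpoly.reverse (AP h).charpoly.reverse := by
  refine ⟨coeff_zero_rev _, coeff_zero_rev _, ?_⟩
  rw [Polynomial.coe_sub, Polynomial.coe_mul, Polynomial.coe_mul, Polynomial.coe_mul,
    derivative_reverse_charpoly, derivative_reverse_charpoly]
  have h1 : N = (PowerSeries.mk fun k => LinearMap.trace K (VP p) (AP h ^ (k + 1))) -
      PowerSeries.mk fun k => LinearMap.trace K (VM p) (AM h ^ (k + 1)) := by
    ext k
    rw [hN, map_sub, PowerSeries.coeff_mk, PowerSeries.coeff_mk, trace_AP hp h, trace_AM hp h,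
      ← map_sub, ← mul_sub, eP_sub_eM]
  rw [h1]
  ring

section

variable [Module.Finite K V] {N : ℕ → ℚ}

/-- The zeta function is a rational function with rational coefficients. -/
theorem exists_zeta (hp : p * p = 1) (h : A * p = p * A)
    (hN : ∀ k, ((N (k + 1) : ℚ) : K) = LinearMap.trace K V (A ^ (k + 1) * p)) :
    ∃ P Q : ℚ[X], IsZeta N P Q := by
  set NK : PowerSeries K := PowerSeries.mk fun k => ((N (k + 1) : ℚ) : K) with hNK
  have hrel : LogRel NK (AM h).charpoly.reverse (AP h).charpoly.reverse :=
    logRel hp h (fun k => by rw [hNK, PowerSeries.coeff_mk, hN])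
  set rM := (AM h).charpoly.reverse with hrM
  set rP := (AP h).charpoly.reverse with hrP
  obtain ⟨hM0, hP0, hr⟩ := hrel
  have hP1 : PowerSeries.constantCoeff (rP : PowerSeries K) ≠ 0 := by
    rw [Polynomial.constantCoeff_coe, hP0]; exact one_ne_zero
  set Z : PowerSeries K := (rM : PowerSeries K) * (rP : PowerSeries K)⁻¹ with hZ
  have hPZ : (rP : PowerSeries K) * Z = rM := by
    rw [hZ]
    calc (rP : PowerSeries K) * ((rM : PowerSeries K) * (rP : PowerSeries K)⁻¹)
        = (rM : PowerSeries K) * ((rP : PowerSeries K) * (rP : PowerSeries K)⁻¹) := by ring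
      _ = _ := by rw [PowerSeries.mul_inv_cancel _ hP1, mul_one]
  have hdZ : PowerSeries.derivative K Z = NK * Z := by
    have hne : (rP : PowerSeries K) ≠ 0 := by
      intro h0
      rw [h0, map_zero] at hP1
      exact hP1 rfl
    apply mul_left_cancel₀ (pow_ne_zero 2 hne)
    have h1 := congrArg (PowerSeries.derivative K) hPZ
    rw [Derivation.leibniz, PowerSeries.derivative_coe, PowerSeries.derivative_coe] at h1
    simp only [smul_eq_mul] at h1
    simp only [Polynomial.coe_mul, Polynomial.coe_sub] at hr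
    linear_combination (rP : PowerSeries K) * h1 + hr - NK * (rP : PowerSeries K) * hPZ -
      ((derivative rP : K[X]) : PowerSeries K) * hPZ
  clear_value Z
  have hrat : ∀ m, ∃ q : ℚ, PowerSeries.coeff m Z = (q : K) := by
    intro m
    induction m using Nat.strong_induction_on with
    | _ m ih =>
      cases m with
      | zero =>
        refine ⟨1, ?_⟩
        have h1 := congrArg PowerSeries.constantCoeff hPZ
        rw [map_mul, Polynomial.constantCoeff_coe, Polynomial.constantCoeff_coe, hM0, hP0,
          one_mul] at h1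
        rw [PowerSeries.coeff_zero_eq_constantCoeff_apply, h1, Rat.cast_one]
      | succ m =>
        have h1 := congrArg (PowerSeries.coeff m) hdZ
        rw [PowerSeries.coeff_derivative, PowerSeries.coeff_mul] at h1
        have h2 : ∀ x ∈ Finset.HasAntidiagonal.antidiagonal m, ∃ q : ℚ,
            PowerSeries.coeff x.1 NK * PowerSeries.coeff x.2 Z = (q : K) := by
          intro x hx
          obtain ⟨q, hq⟩ := ih x.2 (by
            have := Finset.HasAntidiagonal.mem_antidiagonal.mp hx
            omega)
          refine ⟨N (x.1 + 1) * q, ?_⟩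
          rw [hNK, PowerSeries.coeff_mk, hq, Rat.cast_mul]
        choose! f hf using h2
        rw [Finset.sum_congr rfl hf, ← Rat.cast_sum] at h1
        refine ⟨(∑ x ∈ Finset.HasAntidiagonal.antidiagonal m, f x) / (m + 1), ?_⟩
        have h3 : ((m : K) + 1) ≠ 0 := by exact_mod_cast Nat.succ_ne_zero m
        rw [Rat.cast_div, ← h1]
        push_cast
        field_simp
  choose z hz using hrat
  obtain ⟨ℓ, hℓ⟩ : ∃ ℓ : K →ₗ[ℚ] ℚ, ℓ 1 = 1 := by
    obtain ⟨g, hg⟩ := LinearMap.exists_leftInverse_of_injective (Algebra.linearMap ℚ K)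
      (LinearMap.ker_eq_bot.mpr (algebraMap ℚ K).injective)
    exact ⟨g, by simpa using LinearMap.congr_fun hg 1⟩
  have hpol : ∀ r : K[X], ∃ P : ℚ[X], ∀ i, P.coeff i = ℓ (r.coeff i) := by
    intro r
    refine ⟨∑ i ∈ Finset.range (r.natDegree + 1), monomial i (ℓ (r.coeff i)), fun i => ?_⟩
    rw [finsetSum_coeff]
    simp only [coeff_monomial]
    rw [Finset.sum_ite_eq' (Finset.range (r.natDegree + 1)) i]
    split_ifs with h1
    · rfl
    · rw [coeff_eq_zero_of_natDegree_lt (by
        rw [Finset.mem_range] at h1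
        omega), map_zero]
  obtain ⟨P0, hP0'⟩ := hpol rM
  obtain ⟨Q0, hQ0'⟩ := hpol rP
  have hQZ : (Q0 : PowerSeries ℚ) * PowerSeries.mk z = P0 := by
    ext m
    rw [PowerSeries.coeff_mul, Polynomial.coeff_coe, hP0']
    have h1 := congrArg (fun w => ℓ (PowerSeries.coeff m w)) hPZ
    simp only [Polynomial.coeff_coe] at h1
    rw [← h1, PowerSeries.coeff_mul, map_sum]
    refine Finset.sum_congr rfl fun x _ => ?_
    rw [Polynomial.coeff_coe, Polynomial.coeff_coe, hQ0', PowerSeries.coeff_mk, hz, mul_comm
      (rP.coeff x.1), ← Rat.smul_def, map_smul, smul_eq_mul, mul_comm]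
  have hdz : PowerSeries.derivative ℚ (PowerSeries.mk z) =
      (PowerSeries.mk fun k => N (k + 1)) * PowerSeries.mk z := by
    ext m
    have h1 := congrArg (PowerSeries.coeff m) hdZ
    rw [PowerSeries.coeff_derivative, PowerSeries.coeff_mul, hz] at h1
    rw [PowerSeries.coeff_derivative, PowerSeries.coeff_mul, PowerSeries.coeff_mk]
    have h2 : ((z (m + 1) * (m + 1) : ℚ) : K) = ((∑ x ∈ Finset.HasAntidiagonal.antidiagonal m,
        (N (x.1 + 1)) * z x.2 : ℚ) : K) := by
      push_cast
      rw [h1]
      refine Finset.sum_congr rfl fun x _ => ?_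
      rw [hNK, PowerSeries.coeff_mk, hz]
    have h3 := Rat.cast_injective h2
    rw [h3]
    refine Finset.sum_congr rfl fun x _ => ?_
    rw [PowerSeries.coeff_mk, PowerSeries.coeff_mk]
  refine ⟨P0, Q0, by rw [hP0', hM0, hℓ], by rw [hQ0', hP0, hℓ], ?_⟩
  have h1 := congrArg (PowerSeries.derivative ℚ) hQZ
  rw [Derivation.leibniz, PowerSeries.derivative_coe, PowerSeries.derivative_coe, hdz] at h1
  simp only [smul_eq_mul] at h1
  simp only [Polynomial.coe_mul, Polynomial.coe_sub]
  set w := PowerSeries.mk z
  set n := PowerSeries.mk fun k => N (k + 1)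
  linear_combination (-(Q0 : PowerSeries ℚ)) * h1 + (n * (Q0 : PowerSeries ℚ) +
    ((derivative Q0 : ℚ[X]) : PowerSeries ℚ)) * hQZ

/-- The two reversed characteristic polynomials are the numerator and the denominator, up to a
common factor. -/
theorem common_factor (hp : p * p = 1) (h : A * p = p * A)
    (hN : ∀ k, ((N (k + 1) : ℚ) : K) = LinearMap.trace K V (A ^ (k + 1) * p)) {P Q : ℚ[X]}
    (hz : IsZeta N P Q) (hc : IsCoprime P Q) : ∃ s : K[X], s.coeff 0 = 1 ∧
      (AM h).charpoly.reverse = P.map (algebraMap ℚ K) * s ∧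
      (AP h).charpoly.reverse = Q.map (algebraMap ℚ K) * s := by
  have hrel : LogRel (PowerSeries.mk fun k => ((N (k + 1) : ℚ) : K))
      (AM h).charpoly.reverse (AP h).charpoly.reverse :=
    logRel hp h (fun k => by rw [PowerSeries.coeff_mk, hN])
  have h1 := LogRel.unique (hz.map (K := K)) hrel
  have hc' : IsCoprime (P.map (algebraMap ℚ K)) (Q.map (algebraMap ℚ K)) :=
    hc.map (mapRingHom (algebraMap ℚ K))
  obtain ⟨s, hs⟩ : P.map (algebraMap ℚ K) ∣ (AM h).charpoly.reverse :=
    hc'.dvd_of_dvd_mul_left (Dvd.intro _ h1)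
  have hP0 : P.map (algebraMap ℚ K) ≠ 0 := by
    intro h0
    have h2 := (hz.map (K := K)).1
    rw [h0, coeff_zero] at h2
    exact zero_ne_one h2
  refine ⟨s, ?_, hs, ?_⟩
  · have h2 := coeff_zero_rev (AM h)
    rw [hs, mul_coeff_zero, (hz.map (K := K)).1, one_mul] at h2
    exact h2
  · apply mul_left_cancel₀ hP0
    rw [h1, hs]
    ring

theorem degree_le (hp : p * p = 1) (h : A * p = p * A)
    (hN : ∀ k, ((N (k + 1) : ℚ) : K) = LinearMap.trace K V (A ^ (k + 1) * p)) {P Q : ℚ[X]}
    (hz : IsZeta N P Q) (hc : IsCoprime P Q) :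
    P.natDegree + Q.natDegree ≤ Module.finrank K V := by
  obtain ⟨s, hs0, h1, h2⟩ := common_factor hp h hN hz hc
  have hs : s ≠ 0 := by
    rintro rfl
    simp at hs0
  have hP0 : P.map (algebraMap ℚ K) ≠ 0 := by
    intro h0
    have h2 := (hz.map (K := K)).1
    rw [h0, coeff_zero] at h2
    exact zero_ne_one h2
  have hQ0 : Q.map (algebraMap ℚ K) ≠ 0 := by
    intro h0
    have h2 := (hz.map (K := K)).2.1
    rw [h0, coeff_zero] at h2
    exact zero_ne_one h2
  have h3 := reverse_natDegree_le (AM h).charpoly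
  have h4 := reverse_natDegree_le (AP h).charpoly
  rw [h1, natDegree_mul hP0 hs, natDegree_map, LinearMap.charpoly_natDegree] at h3
  rw [h2, natDegree_mul hQ0 hs, natDegree_map, LinearMap.charpoly_natDegree] at h4
  have h5 := finrank_add hp
  omega

lemma reflect_reflect' {R : Type*} [Semiring R] (n : ℕ) (f : R[X]) : reflect n (reflect n f) = f := by
  ext i
  rw [coeff_reflect, coeff_reflect, revAt_invol]

lemma reflect_map' {R S : Type*} [Semiring R] [Semiring S] (φ : R →+* S) (n : ℕ) (f : R[X]) :
    reflect n (f.map φ) = (reflect n f).map φ := by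
  ext i
  rw [coeff_reflect, coeff_map, coeff_map, coeff_reflect]

/-- Reflections of coprime polynomials are coprime if the degrees are almost maximal. -/
lemma coprime_reflect {P Q : ℚ[X]} (hc : IsCoprime P Q) {m n : ℕ} (hm : P.natDegree ≤ m)
    (hn : Q.natDegree ≤ n) (h : m + n ≤ P.natDegree + Q.natDegree + 1) (hP : P ≠ 0) (hQ : Q ≠ 0) :
    IsCoprime (reflect m P) (reflect n Q) := by
  refine (Polynomial.isCoprime_iff_aeval_ne_zero_of_isAlgClosed ℚ (AlgebraicClosure ℚ) _ _).mpr ?_
  intro a
  by_contra hcon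
  push Not at hcon
  obtain ⟨h1, h2⟩ := hcon
  by_cases ha : a = 0
  · subst ha
    rw [aeval_def, eval₂_at_zero, coeff_reflect, map_eq_zero, revAt_le (Nat.zero_le _),
      Nat.sub_zero] at h1 h2
    have h3 : P.natDegree ≠ m := by
      intro h0
      rw [← h0, coeff_natDegree, leadingCoeff_eq_zero] at h1
      exact hP h1
    have h4 : Q.natDegree ≠ n := by
      intro h0
      rw [← h0, coeff_natDegree, leadingCoeff_eq_zero] at h2
      exact hQ h2
    omega
  · have : Invertible a⁻¹ := invertibleOfNonzero (inv_ne_zero ha)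
    have hinv : ⅟(a⁻¹) = a := by rw [invOf_eq_inv, inv_inv]
    have h3 : aeval a⁻¹ P = 0 := by
      rw [aeval_def, ← eval₂_reflect_eq_zero_iff _ a⁻¹ m P hm, hinv]
      exact h1
    have h4 : aeval a⁻¹ Q = 0 := by
      rw [aeval_def, ← eval₂_reflect_eq_zero_iff _ a⁻¹ n Q hn, hinv]
      exact h2
    rcases (Polynomial.isCoprime_iff_aeval_ne_zero_of_isAlgClosed ℚ (AlgebraicClosure ℚ) P Q).mp hc
      a⁻¹ with h5 | h5
    · exact h5 h3
    · exact h5 h4

/-- **If the zeta function has almost maximal degree, then the projector to the even part is a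
rational polynomial in the operator.** -/
theorem exists_poly (hp : p * p = 1) (h : A * p = p * A)
    (hN : ∀ k, ((N (k + 1) : ℚ) : K) = LinearMap.trace K V (A ^ (k + 1) * p)) {P Q : ℚ[X]}
    (hz : IsZeta N P Q) (hc : IsCoprime P Q)
    (hd : Module.finrank K V ≤ P.natDegree + Q.natDegree + 1) :
    ∃ u : ℚ[X], aeval A (u.map (algebraMap ℚ K)) = eP p := by
  obtain ⟨s, hs0, h1, h2⟩ := common_factor hp h hN hz hc
  have hs : s ≠ 0 := by
    rintro rfl
    simp at hs0
  have hP0 : P.map (algebraMap ℚ K) ≠ 0 := by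
    intro h0
    have h2 := (hz.map (K := K)).1
    rw [h0, coeff_zero] at h2
    exact zero_ne_one h2
  have hQ0 : Q.map (algebraMap ℚ K) ≠ 0 := by
    intro h0
    have h2 := (hz.map (K := K)).2.1
    rw [h0, coeff_zero] at h2
    exact zero_ne_one h2
  have h3 := reverse_natDegree_le (AM h).charpoly
  have h4 := reverse_natDegree_le (AP h).charpoly
  rw [h1, natDegree_mul hP0 hs, natDegree_map, LinearMap.charpoly_natDegree] at h3
  rw [h2, natDegree_mul hQ0 hs, natDegree_map, LinearMap.charpoly_natDegree] at h4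
  have h5 := finrank_add hp
  have hsd : s.natDegree = 0 := by omega
  have hs1 : s = 1 := by
    rw [eq_C_of_natDegree_eq_zero hsd, hs0, C_1]
  rw [hs1, mul_one] at h1 h2
  set m := Module.finrank K (VM p) with hm
  set n := Module.finrank K (VP p) with hn
  have h6 : (AM h).charpoly = (reflect m P).map (algebraMap ℚ K) := by
    rw [← reflect_map', ← h1, reverse, LinearMap.charpoly_natDegree, ← hm, reflect_reflect']
  have h7 : (AP h).charpoly = (reflect n Q).map (algebraMap ℚ K) := by
    rw [← reflect_map', ← h2, reverse, LinearMap.charpoly_natDegree, ← hn, reflect_reflect']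
  have hP1 : P ≠ 0 := by
    rintro rfl
    simp at hP0
  have hQ1 : Q ≠ 0 := by
    rintro rfl
    simp at hQ0
  obtain ⟨u, v, huv⟩ := coprime_reflect hc (m := m) (n := n) (by omega) (by omega) (by omega)
    hP1 hQ1
  refine ⟨u * reflect m P, ?_⟩
  have h8 : aeval (AM h) ((u * reflect m P).map (algebraMap ℚ K)) = 0 := by
    rw [Polynomial.map_mul, ← h6, map_mul, LinearMap.aeval_self_charpoly, mul_zero]
  have h9 : aeval (AP h) ((u * reflect m P).map (algebraMap ℚ K)) = 1 := by
    have h10 : u * reflect m P = 1 - v * reflect n Q := by rw [← huv]; ring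
    rw [h10, Polynomial.map_sub, Polynomial.map_one, Polynomial.map_mul, ← h7, map_sub, map_one,
      map_mul, LinearMap.aeval_self_charpoly, mul_zero, sub_zero]
  ext x
  have h11 := AP_aeval h ((u * reflect m P).map (algebraMap ℚ K)) ⟨eP p x, eP_mem hp x⟩
  have h12 := AM_aeval h ((u * reflect m P).map (algebraMap ℚ K)) ⟨eM p x, eM_mem hp x⟩
  rw [h9] at h11
  rw [h8] at h12
  conv_lhs => rw [← eP_add_eM (p := p) x]
  rw [map_add, ← h11, ← h12]
  simp

end

end Pool.Agent.R911.Zd
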