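import Pool.Agent.R911.Zd.Defs
import Pool.Agent.H578R3.SgnDefs
import Pool.Agent.H447R3.SpDefs

set_option autoImplicit false

/-!
# Zeta functions of correspondences: definitions
-/

open CategoryTheory AlgebraicGeometry

universe u v

namespace Pool.Agent.R911.Zd

open Pool.Agent.H914 VarClass Obj WeilCohomology Pool.Agent.H578R3.Sgn

variable {k : Type u} [Field k] {𝒱 : VarClass k} (ops : CycleOps 𝒱) (X : 𝒱.Obj)

/-- The iterate `z ∘ z ∘ ⋯ ∘ z`, `m + 1` factors, of a correspondence `z` from `X` to itself. -/
noncomputable def iterCyc (z : (X.prod X).Cycles) : ℕ → (X.prod X).Cycles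
  | 0 => z
  | m + 1 => compCyc ops (iterCyc z m) z

/-- The intersection number of the `m`-th iterate of `z` with the diagonal, for `m ≥ 1`. -/
noncomputable def fixedNumber (z : (X.prod X).Cycles) : ℕ → ℚ
  | 0 => 0
  | m + 1 => diagNumber ops X (iterCyc ops X z m)

/-- The total degree of the zeta function `exp (∑ (z ^ m · Δ) t ^ m / m)` of the correspondence
`z`: the number of its zeros and poles with multiplicities. -/
noncomputable def cycleZetaDegree (z : (X.prod X).Cycles) : ℕ :=
  zetaDegree (fixedNumber ops X z)

/-- The sum of the Betti numbers of `X`, the dimension of `H(X)`. -/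
noncomputable def sumBetti {ops : CycleOps 𝒱} (W : WeilCohomology.{u, v} ops) (X : 𝒱.Obj) : ℕ :=
  Module.finrank W.K (W.H X)

end Pool.Agent.R911.Zd
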