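import Pool.Agent.R911.Zd.Core
import Pool.Agent.R911.Zd.GDefs
import Pool.Agent.H578R3.SgnCyc
import Pool.Agent.H447R3.SpC

set_option autoImplicit false
set_option linter.unusedSectionVars false

/-!
# The sign conjecture and zeta functions of correspondences
-/

open CategoryTheory AlgebraicGeometry

universe u v

namespace Pool.Agent.R911.Zd

open Pool.Agent.H914 VarClass Obj WeilCohomology Pool.Agent.H578R3.Sgn Pool.Agent.H447

variable {k : Type u} [Field k] {𝒱 : VarClass k} {ops : CycleOps 𝒱} {X : 𝒱.Obj}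

lemma iterCyc_mem {z : (X.prod X).Cycles} (hz : (X.prod X).IsCyc X.dim z) (m : ℕ) :
    (X.prod X).IsCyc X.dim (iterCyc ops X z m) := by
  induction m with
  | zero => exact hz
  | succ m ih => exact compCyc_mem ih hz rfl

lemma corr_iterCyc (W : WeilCohomology.{u, v} ops) {z : (X.prod X).Cycles}
    (hz : (X.prod X).IsCyc X.dim z) (m : ℕ) :
    W.corr (W.cl _ (iterCyc ops X z m)) = W.corr (W.cl _ z) ^ (m + 1) := by
  induction m with
  | zero => rw [iterCyc, zero_add, pow_one]
  | succ m ih =>
    rw [iterCyc, corr_compCyc W hz, ih, pow_succ' _ (m + 1)]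
    rfl

lemma corr_comm (W : WeilCohomology.{u, v} ops) {z : (X.prod X).Cycles}
    (hz : (X.prod X).IsCyc X.dim z) :
    W.corr (W.cl _ z) * par (W.isInternal X) = par (W.isInternal X) * W.corr (W.cl _ z) := by
  have h1 : ROp W X 0 (W.corr (W.cl _ z)) := rop_corr (by simp) hz
  have h2 : IsHom (W.gr X) 0 (W.corr (W.cl _ z)) := by simpa using rop_opAlg.hom h1
  exact (IsHom.par_comm (d := 0) (W.isInternal X) (by simpa using h2)).symm

lemma trace_fixed (W : WeilCohomology.{u, v} ops) {z : (X.prod X).Cycles}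
    (hz : (X.prod X).IsCyc X.dim z) (m : ℕ) : ((fixedNumber ops X z (m + 1) : ℚ) : W.K) =
      LinearMap.trace W.K (W.H X) (W.corr (W.cl _ z) ^ (m + 1) * par (W.isInternal X)) := by
  have h1 : W.corr (W.cl _ z) ^ (m + 1) * par (W.isInternal X) =
      par (W.isInternal X) * W.corr (W.cl _ z) ^ (m + 1) :=
    (show Commute (W.corr (W.cl _ z)) (par (W.isInternal X)) from corr_comm W hz).pow_left (m + 1)
  rw [h1, ← corr_iterCyc W hz, diagNumber_eq W (iterCyc_mem hz m)]
  rfl

lemma cycle_zeta_exists (W : WeilCohomology.{u, v} ops) {z : (X.prod X).Cycles}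
    (hz : (X.prod X).IsCyc X.dim z) :
    ∃ P Q : Polynomial ℚ, IsZeta (fixedNumber ops X z) P Q :=
  exists_zeta (par_mul_par (W.isInternal X)) (corr_comm W hz) (trace_fixed W hz)

lemma cycleZetaDegree_le (W : WeilCohomology.{u, v} ops) {z : (X.prod X).Cycles}
    (hz : (X.prod X).IsCyc X.dim z) : cycleZetaDegree ops X z ≤ sumBetti W X := by
  obtain ⟨P, Q, h⟩ := cycle_zeta_exists W hz
  obtain ⟨P', Q', h', hc, -⟩ := exists_coprime h
  rw [cycleZetaDegree, zetaDegree_eq h' hc]
  exact degree_le (par_mul_par (W.isInternal X)) (corr_comm W hz) (trace_fixed W hz) h' hc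

lemma aeval_rop {W : WeilCohomology.{u, v} ops} {A : Module.End W.K (W.H X)} (hA : ROp W X 0 A)
    (u : Polynomial ℚ) : ROp W X 0 (Polynomial.aeval A (u.map (algebraMap ℚ W.K))) := by
  have hOA := rop_opAlg (W := W) (X := X)
  have hpow : ∀ n : ℕ, ROp W X 0 (A ^ n) := by
    intro n
    induction n with
    | zero => rw [pow_zero]; exact hOA.one
    | succ n ih => rw [pow_succ]; simpa using hOA.mul ih hA
  induction u using Polynomial.induction_on' with
  | add a b ha hb =>
    rw [Polynomial.map_add, map_add]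
    exact hOA.add ha hb
  | monomial n a =>
    rw [Polynomial.map_monomial, Polynomial.aeval_monomial, Algebra.algebraMap_eq_smul_one,
      smul_mul_assoc, one_mul]
    have h1 : (algebraMap ℚ W.K) a = ((a : ℚ) : W.K) := by simp
    rw [h1]
    exact hOA.smul a (hpow n)

lemma sign_of_zeta (W : WeilCohomology.{u, v} ops) {z : (X.prod X).Cycles}
    (hz : (X.prod X).IsCyc X.dim z) (hd : sumBetti W X ≤ cycleZetaDegree ops X z + 1) :
    SignStd W X := by
  obtain ⟨P, Q, h⟩ := cycle_zeta_exists W hz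
  obtain ⟨P', Q', h', hc, -⟩ := exists_coprime h
  rw [cycleZetaDegree, zetaDegree_eq h' hc] at hd
  obtain ⟨u, hu⟩ := exists_poly (par_mul_par (W.isInternal X)) (corr_comm W hz)
    (trace_fixed W hz) h' hc hd
  have h1 : ROp W X 0 (eP (par (W.isInternal X))) := by
    rw [← hu]
    exact aeval_rop (rop_corr (by simp) hz) u
  obtain ⟨E, hE, hE'⟩ := exists_of_rop (p := X.dim) (by simp) h1
  refine ⟨E, hE, fun j a ha => ?_⟩
  rw [hE']
  simp only [eP, LinearMap.smul_apply, LinearMap.add_apply, Module.End.one_apply]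
  rw [par, scal_apply _ _ ha]
  split_ifs with hj
  · rw [hj.neg_one_pow, one_smul, ← two_smul W.K a, smul_smul, inv_mul_cancel₀ two_ne_zero,
      one_smul]
  · rw [(Nat.not_even_iff_odd.1 hj).neg_one_pow, neg_one_smul, add_neg_cancel, smul_zero]

end Pool.Agent.R911.Zd
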