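import Pool.Agent.R911.Zd.Core

set_option autoImplicit false
set_option linter.unusedSectionVars false

/-!
# The zeta function of an involution
-/

open Polynomial

namespace Pool.Agent.R911.Zd

/-- The zeta function of the parity operator. -/
lemma isZeta_par {N : ℕ → ℚ} (a b : ℕ) (hN : ∀ k, N (k + 1) = a + (-1) ^ k * b) :
    IsZeta N ((1 + X) ^ b) ((1 - X) ^ a) := by
  refine ⟨by simp [coeff_zero_eq_eval_zero], by simp [coeff_zero_eq_eval_zero], ?_⟩
  set S : PowerSeries ℚ := PowerSeries.mk fun k => N (k + 1) with hS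
  have h1 : (PowerSeries.mk fun _ => (1 : ℚ)) * (1 - PowerSeries.X) = 1 :=
    PowerSeries.mk_one_mul_one_sub_eq_one ℚ
  have h2 : (PowerSeries.mk fun k => (-1 : ℚ) ^ k) * (1 + PowerSeries.X) = 1 := by
    ext k
    rw [mul_add, mul_one, map_add, PowerSeries.coeff_mk]
    cases k with
    | zero => rw [PowerSeries.coeff_zero_mul_X]; simp
    | succ k =>
      rw [PowerSeries.coeff_succ_mul_X, PowerSeries.coeff_mk, PowerSeries.coeff_one,
        if_neg (Nat.succ_ne_zero k), pow_succ]
      ring
  have h3 : S = (a : PowerSeries ℚ) * (PowerSeries.mk fun _ => (1 : ℚ)) +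
      (b : PowerSeries ℚ) * (PowerSeries.mk fun k => (-1 : ℚ) ^ k) := by
    ext k
    rw [hS, PowerSeries.coeff_mk, hN, map_add]
    have h4 : ((a : ℕ) : PowerSeries ℚ) = PowerSeries.C (a : ℚ) := by simp
    have h5 : ((b : ℕ) : PowerSeries ℚ) = PowerSeries.C (b : ℚ) := by simp
    rw [h4, h5, PowerSeries.coeff_C_mul, PowerSeries.coeff_C_mul, PowerSeries.coeff_mk,
      PowerSeries.coeff_mk]
    ring
  have h6 : S * ((1 - PowerSeries.X) * (1 + PowerSeries.X)) =
      (a : PowerSeries ℚ) * (1 + PowerSeries.X) + (b : PowerSeries ℚ) * (1 - PowerSeries.X) := by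
    rw [h3]
    linear_combination (a : PowerSeries ℚ) * (1 + PowerSeries.X) * h1 +
      (b : PowerSeries ℚ) * (1 - PowerSeries.X) * h2
  have h7 : derivative ((1 + X : ℚ[X]) ^ b) * (1 + X) = (b : ℚ[X]) * (1 + X) ^ b := by
    rw [derivative_pow]
    cases b with
    | zero => simp
    | succ b =>
      simp only [Nat.add_sub_cancel, derivative_add, derivative_one, derivative_X, zero_add,
        mul_one, pow_succ]
      simp
      ring
  have h8 : derivative ((1 - X : ℚ[X]) ^ a) * (1 - X) = -((a : ℚ[X]) * (1 - X) ^ a) := by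
    rw [derivative_pow]
    cases a with
    | zero => simp
    | succ a =>
      simp only [Nat.add_sub_cancel, derivative_sub, derivative_one, derivative_X, zero_sub,
        mul_one, pow_succ]
      simp
      ring
  have hcast : ∀ m : ℕ, (((m : ℕ) : ℚ[X]) : PowerSeries ℚ) = (m : PowerSeries ℚ) := fun m =>
    map_natCast Polynomial.coeToPowerSeries.ringHom m
  have h7' := congrArg (fun f : ℚ[X] => (f : PowerSeries ℚ)) h7
  have h8' := congrArg (fun f : ℚ[X] => (f : PowerSeries ℚ)) h8
  have hne : ((1 - PowerSeries.X) * (1 + PowerSeries.X) : PowerSeries ℚ) ≠ 0 := by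
    intro h0
    have h9 := congrArg PowerSeries.constantCoeff h0
    simp at h9
  apply mul_left_cancel₀ hne
  simp only [Polynomial.coe_mul, Polynomial.coe_sub, Polynomial.coe_add, Polynomial.coe_one,
    Polynomial.coe_X, Polynomial.coe_neg, hcast] at h7' h8' ⊢
  set p : PowerSeries ℚ := (((1 + X) ^ b : ℚ[X]) : PowerSeries ℚ)
  set q : PowerSeries ℚ := (((1 - X) ^ a : ℚ[X]) : PowerSeries ℚ)
  linear_combination (1 - PowerSeries.X) * q * h7' - (1 + PowerSeries.X) * p * h8' -
    p * q * h6

variable {K : Type*} [Field K] [CharZero K] {V : Type*} [AddCommGroup V] [Module K V]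
  [Module.Finite K V] {p : Module.End K V}

lemma zetaDegree_par (hp : p * p = 1) {N : ℕ → ℚ}
    (hN : ∀ k, ((N (k + 1) : ℚ) : K) = LinearMap.trace K V (p ^ (k + 1) * p)) :
    zetaDegree N = Module.finrank K V := by
  have hcomm : p * p = p * p := rfl
  have h1 : LinearMap.trace K V (eP p) = ((Module.finrank K (VP p) : ℕ) : K) := by
    have h2 := trace_AP (p := p) (A := p) hp hcomm 0
    rw [pow_zero, pow_zero, one_mul, LinearMap.trace_one] at h2
    exact h2.symm
  have h2 : LinearMap.trace K V (eM p) = ((Module.finrank K (VM p) : ℕ) : K) := by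
    have h2 := trace_AM (p := p) (A := p) hp hcomm 0
    rw [pow_zero, pow_zero, one_mul, LinearMap.trace_one] at h2
    exact h2.symm
  set a := Module.finrank K (VP p) with ha
  set b := Module.finrank K (VM p) with hb
  have h3 : LinearMap.trace K V p = (a : K) - b := by
    rw [← h1, ← h2, ← map_sub, eP_sub_eM]
  have h4 : LinearMap.trace K V 1 = (a : K) + b := by
    rw [← h1, ← h2, ← map_add]
    congr 1
    ext v
    rw [LinearMap.add_apply, eP_add_eM, Module.End.one_apply]
  have hN' : ∀ k, N (k + 1) = a + (-1) ^ k * b := by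
    intro k
    apply Rat.cast_injective (α := K)
    rw [hN, ← pow_succ]
    rcases Nat.even_or_odd k with hk | hk
    · obtain ⟨m, rfl⟩ := hk
      have h5 : p ^ (m + m + 1 + 1) = 1 := by
        rw [show m + m + 1 + 1 = 2 * (m + 1) by ring, pow_mul, pow_two, hp, one_pow]
      rw [h5, h4, Even.neg_one_pow ⟨m, rfl⟩]
      push_cast
      ring
    · obtain ⟨m, rfl⟩ := hk
      have h5 : p ^ (2 * m + 1 + 1 + 1) = p := by
        rw [show 2 * m + 1 + 1 + 1 = 2 * (m + 1) + 1 by ring, pow_succ, pow_mul, pow_two, hp,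
          one_pow, one_mul]
      rw [h5, h3, Odd.neg_one_pow ⟨m, rfl⟩]
      push_cast
      ring
  have hz := isZeta_par a b hN'
  have hc : IsCoprime ((1 + X : ℚ[X]) ^ b) ((1 - X) ^ a) := by
    apply IsCoprime.pow
    refine ⟨Polynomial.C 2⁻¹, Polynomial.C 2⁻¹, ?_⟩
    have h6 : (Polynomial.C 2⁻¹ : ℚ[X]) * 2 = 1 := by
      rw [show (2 : ℚ[X]) = Polynomial.C 2 from rfl, ← Polynomial.C_mul]
      norm_num
    linear_combination h6
  rw [zetaDegree_eq hz hc, natDegree_pow, natDegree_pow]
  have h7 : (1 + X : ℚ[X]).natDegree = 1 := by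
    rw [add_comm]; exact natDegree_X_add_C 1
  have h8 : (1 - X : ℚ[X]).natDegree = 1 := by
    rw [← natDegree_neg, neg_sub]; exact natDegree_X_sub_C 1
  rw [h7, h8, ← finrank_add hp, ← ha, ← hb]
  ring

end Pool.Agent.R911.Zd
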