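import Pool.Agent.R911.Zd.Geo
import Pool.Agent.R911.Zd.Par

set_option autoImplicit false
set_option linter.unusedSectionVars false

/-!
# The zeta index
-/

open CategoryTheory AlgebraicGeometry

universe u v

namespace Pool.Agent.R911.Zd

open Pool.Agent.H914 VarClass Obj WeilCohomology Pool.Agent.H578R3.Sgn Pool.Agent.H447

variable {k : Type u} [Field k] {𝒱 : VarClass k} {ops : CycleOps 𝒱} {X : 𝒱.Obj}

lemma zeta_of_sign (W : WeilCohomology.{u, v} ops) (hS : SignStd W X) :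
    ∃ z, (X.prod X).IsCyc X.dim z ∧ cycleZetaDegree ops X z = sumBetti W X := by
  obtain ⟨z, hz, hz'⟩ := exists_of_rop (p := X.dim) (by simp) (par_rop_of_sign hS)
  refine ⟨z, hz, ?_⟩
  have hN := trace_fixed W hz
  rw [hz'] at hN
  exact zetaDegree_par (par_mul_par (W.isInternal X)) hN

theorem zeta_index (W₀ : WeilCohomology.{u, v} ops) (X : 𝒱.Obj) :
    ∃ z₀, (X.prod X).IsCyc X.dim z₀ ∧ ∀ W : WeilCohomology.{u, v} ops,
      (∀ z, (X.prod X).IsCyc X.dim z → (∃ P Q : Polynomial ℚ, IsZeta (fixedNumber ops X z) P Q) ∧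
        cycleZetaDegree ops X z ≤ cycleZetaDegree ops X z₀ ∧
        cycleZetaDegree ops X z ≤ sumBetti W X) ∧
      List.TFAE [SignStd W X, cycleZetaDegree ops X z₀ = sumBetti W X,
        sumBetti W X ≤ cycleZetaDegree ops X z₀ + 1] := by
  classical
  -- a correspondence with the largest degree
  have hbd : ∀ z, (X.prod X).IsCyc X.dim z → cycleZetaDegree ops X z ≤ sumBetti W₀ X :=
    fun z hz => cycleZetaDegree_le W₀ hz
  obtain ⟨z₀, hz₀, hmax⟩ : ∃ z₀, (X.prod X).IsCyc X.dim z₀ ∧ ∀ z, (X.prod X).IsCyc X.dim z →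
      cycleZetaDegree ops X z ≤ cycleZetaDegree ops X z₀ := by
    have hfin := Nat.findGreatest_spec (P := fun d => ∃ z, (X.prod X).IsCyc X.dim z ∧
      cycleZetaDegree ops X z = d) (n := sumBetti W₀ X) (hbd _ (SmVar.IsCyc.zero _ _))
      ⟨0, SmVar.IsCyc.zero _ _, rfl⟩
    obtain ⟨z₀, hz₀, h0⟩ := hfin
    refine ⟨z₀, hz₀, fun z hz => ?_⟩
    rw [h0]
    exact Nat.le_findGreatest (hbd z hz) ⟨z, hz, rfl⟩
  refine ⟨z₀, hz₀, fun W => ⟨fun z hz => ⟨cycle_zeta_exists W hz, hmax z hz,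
    cycleZetaDegree_le W hz⟩, ?_⟩⟩
  tfae_have 1 → 2 := by
    intro hS
    obtain ⟨z, hz, h⟩ := zeta_of_sign W hS
    exact le_antisymm (cycleZetaDegree_le W hz₀) (h ▸ hmax z hz)
  tfae_have 2 → 3 := fun h => by rw [h]; exact Nat.le_succ _
  tfae_have 3 → 1 := fun h => sign_of_zeta W hz₀ h
  tfae_finish

end Pool.Agent.R911.Zd
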