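import Pool.Agent.R911.Zd.Core
import Pool.Agent.R911.Zd.CDefs
import Pool.Agent.Y112.KD.Real
import Pool.Agent.Y112.SC.Main

set_option autoImplicit false
set_option linter.unusedSectionVars false

/-!
# The conjecture `C⁺` and zeta functions of endomorphisms
-/

open CategoryTheory Limits MonoidalCategory
open Pool.Agent.Y112.SR Pool.Agent.Y112.KD Pool.Agent.Y112.SC
open Polynomial

namespace Pool.Agent.R911.Zd

universe v u w

variable {C : Type u} [Category.{v} C] [Preadditive C] [Linear ℚ C] [MonoidalCategory C]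
  [MonoidalPreadditive C] [MonoidalLinear ℚ C] [SymmetricCategory C]
  [RightRigidCategory C] {K : Type w} [Field K] (R : SuperRealisation C K)

/-- The operator on the realisation. -/
noncomputable def op {M : C} (f : M ⟶ M) : Module.End K (R.H.obj M) := (R.H.map f).hom

/-- The parity operator. -/
noncomputable def pr (M : C) : Module.End K (R.H.obj M) := (R.par M).hom

lemma pr_sq (M : C) : pr R M * pr R M = 1 := by
  have h1 := congrArg ModuleCat.Hom.hom (R.par_sq M)
  rw [ModuleCat.hom_comp, ModuleCat.hom_id] at h1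
  exact h1

lemma op_comm {M : C} (f : M ⟶ M) : op R f * pr R M = pr R M * op R f := by
  have h1 := congrArg ModuleCat.Hom.hom (R.par_natural f)
  rw [ModuleCat.hom_comp, ModuleCat.hom_comp] at h1
  exact h1.symm

lemma op_id (M : C) : op R (𝟙 M) = 1 := by
  rw [op, CategoryTheory.Functor.map_id, ModuleCat.hom_id]
  rfl

lemma op_comp {M : C} (f g : M ⟶ M) : op R (f ≫ g) = op R g * op R f := by
  rw [op, Functor.map_comp, ModuleCat.hom_comp]
  rfl

lemma op_pow {M : C} (f : M ⟶ M) (k : ℕ) : op R (iter f k) = op R f ^ k := by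
  induction k with
  | zero => rw [pow_zero]; exact op_id R M
  | succ k ih => rw [pow_succ', iter, op_comp, ih]

lemma trace_eq (hU : UnitQ C) {M : C} (f : M ⟶ M) (k : ℕ) : ((traceOfPower hU f (k + 1) : ℚ) : K) =
    LinearMap.trace K (R.H.obj M) (op R f ^ (k + 1) * pr R M) := by
  have h1 : op R f ^ (k + 1) * pr R M = pr R M * op R f ^ (k + 1) :=
    ((show Commute (op R f) (pr R M) from op_comm R f).pow_left (k + 1))
  rw [traceOfPower, real_tr R hU, h1, ← op_pow, ModuleCat.hom_comp]
  rfl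

lemma op_add {M : C} (f g : M ⟶ M) : op R (f + g) = op R f + op R g := by
  rw [op, Functor.map_add, ModuleCat.hom_add]
  rfl

lemma op_smul {M : C} (q : ℚ) (f : M ⟶ M) : op R (q • f) = (q : K) • op R f := by
  have := R_charZero R
  rw [op, R_smul, ModuleCat.hom_smul]
  rfl

lemma op_zero (M : C) : op R (0 : M ⟶ M) = 0 := by
  rw [op, Functor.map_zero, ModuleCat.hom_zero]

/-- Polynomials in an endomorphism. -/
lemma exists_op [CharZero K] {M : C} (f : M ⟶ M) (u : ℚ[X]) :
    ∃ g : M ⟶ M, op R g = aeval (op R f) (u.map (algebraMap ℚ K)) := by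
  induction u using Polynomial.induction_on' with
  | add a b ha hb =>
    obtain ⟨g, hg⟩ := ha
    obtain ⟨h, hh⟩ := hb
    exact ⟨g + h, by rw [op_add, hg, hh, Polynomial.map_add, map_add]⟩
  | monomial n a =>
    refine ⟨a • iter f n, ?_⟩
    rw [op_smul, op_pow, Polynomial.map_monomial, aeval_monomial, Algebra.algebraMap_eq_smul_one,
      smul_mul_assoc, one_mul]
    rfl

lemma op_inj {M : C} {x y : R.H.obj M ⟶ R.H.obj M} (h : x.hom = y.hom) : x = y :=
  ModuleCat.hom_ext h

include R in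
lemma zeta_exists (hU : UnitQ C) {M : C} (f : M ⟶ M) :
    ∃ P Q : ℚ[X], IsZeta (traceOfPower hU f) P Q := by
  have := R_charZero R
  have := R.finite M
  exact exists_zeta (pr_sq R M) (op_comm R f) (trace_eq R hU f)

lemma zdeg_le (hU : UnitQ C) {M : C} (f : M ⟶ M) :
    zdeg hU f ≤ Module.finrank K (R.H.obj M) := by
  have := R_charZero R
  have := R.finite M
  obtain ⟨P, Q, h⟩ := zeta_exists R hU f
  obtain ⟨P', Q', h', hc, -⟩ := exists_coprime h
  rw [zdeg, zetaDegree_eq h' hc]
  exact degree_le (pr_sq R M) (op_comm R f) (trace_eq R hU f) h' hc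

lemma cplus_of_zdeg (hU : UnitQ C) {M : C} (f : M ⟶ M)
    (hd : Module.finrank K (R.H.obj M) ≤ zdeg hU f + 1) : R.CPlus M := by
  have := R_charZero R
  have := R.finite M
  obtain ⟨P, Q, h⟩ := zeta_exists R hU f
  obtain ⟨P', Q', h', hc, -⟩ := exists_coprime h
  rw [zdeg, zetaDegree_eq h' hc] at hd
  obtain ⟨u, hu⟩ := exists_poly (pr_sq R M) (op_comm R f) (trace_eq R hU f) h' hc hd
  obtain ⟨g, hg⟩ := exists_op R f u
  refine ⟨g, op_inj R ?_⟩
  rw [hu] at hg
  rw [ModuleCat.hom_smul, ModuleCat.hom_add, ModuleCat.hom_id]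
  change (2 : K) • op R g = _
  rw [hg, eP, smul_smul, mul_inv_cancel₀ two_ne_zero, one_smul]
  rfl

/-- The zeta function of the parity operator. -/
lemma isZeta_parity {N : ℕ → ℚ} (a b : ℕ) (hN : ∀ k, N (k + 1) = a + (-1) ^ k * b) :
    IsZeta N ((1 + X) ^ b) ((1 - X) ^ a) := by
  refine ⟨by simp [coeff_zero_eq_eval_zero], by simp [coeff_zero_eq_eval_zero], ?_⟩
  set S : PowerSeries ℚ := PowerSeries.mk fun k => N (k + 1) with hS
  have h1 : (PowerSeries.mk fun _ => (1 : ℚ)) * (1 - PowerSeries.X) = 1 :=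
    PowerSeries.mk_one_mul_one_sub_eq_one ℚ
  have h2 : (PowerSeries.mk fun k => (-1 : ℚ) ^ k) * (1 + PowerSeries.X) = 1 := by
    ext k
    rw [mul_add, mul_one, map_add, PowerSeries.coeff_mk]
    cases k with
    | zero => rw [PowerSeries.coeff_zero_mul_X]; simp
    | succ k =>
      rw [PowerSeries.coeff_succ_mul_X, PowerSeries.coeff_mk, PowerSeries.coeff_one,
        if_neg (Nat.succ_ne_zero k), pow_succ]
      ring
  have h3 : S = (a : PowerSeries ℚ) * (PowerSeries.mk fun _ => (1 : ℚ)) +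
      (b : PowerSeries ℚ) * (PowerSeries.mk fun k => (-1 : ℚ) ^ k) := by
    ext k
    rw [hS, PowerSeries.coeff_mk, hN, map_add]
    have h4 : ((a : ℕ) : PowerSeries ℚ) = PowerSeries.C (a : ℚ) := by simp
    have h5 : ((b : ℕ) : PowerSeries ℚ) = PowerSeries.C (b : ℚ) := by simp
    rw [h4, h5, PowerSeries.coeff_C_mul, PowerSeries.coeff_C_mul, PowerSeries.coeff_mk,
      PowerSeries.coeff_mk]
    ring
  have h6 : S * ((1 - PowerSeries.X) * (1 + PowerSeries.X)) =
      (a : PowerSeries ℚ) * (1 + PowerSeries.X) + (b : PowerSeries ℚ) * (1 - PowerSeries.X) := by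
    rw [h3]
    linear_combination (a : PowerSeries ℚ) * (1 + PowerSeries.X) * h1 +
      (b : PowerSeries ℚ) * (1 - PowerSeries.X) * h2
  have h7 : derivative ((1 + X : ℚ[X]) ^ b) * (1 + X) = (b : ℚ[X]) * (1 + X) ^ b := by
    rw [derivative_pow]
    cases b with
    | zero => simp
    | succ b =>
      simp only [Nat.add_sub_cancel, derivative_add, derivative_one, derivative_X, zero_add,
        mul_one, pow_succ]
      simp
      ring
  have h8 : derivative ((1 - X : ℚ[X]) ^ a) * (1 - X) = -((a : ℚ[X]) * (1 - X) ^ a) := by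
    rw [derivative_pow]
    cases a with
    | zero => simp
    | succ a =>
      simp only [Nat.add_sub_cancel, derivative_sub, derivative_one, derivative_X, zero_sub,
        mul_one, pow_succ]
      simp
      ring
  have hcast : ∀ m : ℕ, (((m : ℕ) : ℚ[X]) : PowerSeries ℚ) = (m : PowerSeries ℚ) := fun m =>
    map_natCast Polynomial.coeToPowerSeries.ringHom m
  have h7' := congrArg (fun f : ℚ[X] => (f : PowerSeries ℚ)) h7
  have h8' := congrArg (fun f : ℚ[X] => (f : PowerSeries ℚ)) h8
  have hne : ((1 - PowerSeries.X) * (1 + PowerSeries.X) : PowerSeries ℚ) ≠ 0 := by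
    intro h0
    have h9 := congrArg PowerSeries.constantCoeff h0
    simp at h9
  apply mul_left_cancel₀ hne
  simp only [Polynomial.coe_mul, Polynomial.coe_sub, Polynomial.coe_add, Polynomial.coe_one,
    Polynomial.coe_X, Polynomial.coe_neg, hcast] at h7' h8' ⊢
  set p : PowerSeries ℚ := (((1 + X) ^ b : ℚ[X]) : PowerSeries ℚ)
  set q : PowerSeries ℚ := (((1 - X) ^ a : ℚ[X]) : PowerSeries ℚ)
  linear_combination (1 - PowerSeries.X) * q * h7' - (1 + PowerSeries.X) * p * h8' -
    p * q * h6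

lemma zdeg_of_cplus (hU : UnitQ C) {M : C} (h : R.CPlus M) :
    ∃ f : M ⟶ M, zdeg hU f = Module.finrank K (R.H.obj M) := by
  have := R_charZero R
  have := R.finite M
  obtain ⟨g, hg⟩ := (cplus_iff R M).mp h
  refine ⟨g, ?_⟩
  have hp := pr_sq R M
  have hg' : op R g = pr R M := by rw [op, hg]; rfl
  have hcomm : pr R M * pr R M = pr R M * pr R M := rfl
  have h1 : LinearMap.trace K (R.H.obj M) (eP (pr R M)) =
      ((Module.finrank K (VP (pr R M)) : ℕ) : K) := by
    have h2 := trace_AP (p := pr R M) (A := pr R M) hp hcomm 0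
    rw [pow_zero, pow_zero, one_mul, LinearMap.trace_one] at h2
    exact h2.symm
  have h2 : LinearMap.trace K (R.H.obj M) (eM (pr R M)) =
      ((Module.finrank K (VM (pr R M)) : ℕ) : K) := by
    have h2 := trace_AM (p := pr R M) (A := pr R M) hp hcomm 0
    rw [pow_zero, pow_zero, one_mul, LinearMap.trace_one] at h2
    exact h2.symm
  set a := Module.finrank K (VP (pr R M)) with ha
  set b := Module.finrank K (VM (pr R M)) with hb
  have h3 : LinearMap.trace K (R.H.obj M) (pr R M) = (a : K) - b := by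
    rw [← h1, ← h2, ← map_sub, eP_sub_eM]
  have h4 : LinearMap.trace K (R.H.obj M) 1 = (a : K) + b := by
    rw [← h1, ← h2, ← map_add]
    congr 1
    ext v
    rw [LinearMap.add_apply, eP_add_eM, Module.End.one_apply]
  have hN : ∀ k, traceOfPower hU g (k + 1) = a + (-1) ^ k * b := by
    intro k
    apply Rat.cast_injective (α := K)
    rw [trace_eq R hU, hg', ← pow_succ]
    rcases Nat.even_or_odd k with hk | hk
    · obtain ⟨m, rfl⟩ := hk
      have h5 : pr R M ^ (m + m + 1 + 1) = 1 := by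
        rw [show m + m + 1 + 1 = 2 * (m + 1) by ring, pow_mul, pow_two, hp, one_pow]
      rw [h5, h4, Even.neg_one_pow ⟨m, rfl⟩]
      push_cast
      ring
    · obtain ⟨m, rfl⟩ := hk
      have h5 : pr R M ^ (2 * m + 1 + 1 + 1) = pr R M := by
        rw [show 2 * m + 1 + 1 + 1 = 2 * (m + 1) + 1 by ring, pow_succ, pow_mul, pow_two, hp,
          one_pow, one_mul]
      rw [h5, h3, Odd.neg_one_pow ⟨m, rfl⟩]
      push_cast
      ring
  have hz := isZeta_parity a b hN
  have hc : IsCoprime ((1 + X : ℚ[X]) ^ b) ((1 - X) ^ a) := by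
    apply IsCoprime.pow
    refine ⟨Polynomial.C 2⁻¹, Polynomial.C 2⁻¹, ?_⟩
    have h6 : (Polynomial.C 2⁻¹ : ℚ[X]) * 2 = 1 := by
      rw [show (2 : ℚ[X]) = Polynomial.C 2 from rfl, ← Polynomial.C_mul]
      norm_num
    linear_combination h6
  rw [zdeg, zetaDegree_eq hz hc, natDegree_pow, natDegree_pow]
  have h7 : (1 + X : ℚ[X]).natDegree = 1 := by
    rw [add_comm]; exact natDegree_X_add_C 1
  have h8 : (1 - X : ℚ[X]).natDegree = 1 := by
    rw [← natDegree_neg, neg_sub]; exact natDegree_X_sub_C 1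
  rw [h7, h8, ← finrank_add hp, ← ha, ← hb]
  ring

lemma not_isZero_tp {M : C} (hM : ¬ IsZero (R.H.obj M)) (n : ℕ) :
    ¬ IsZero (R.H.obj (tp M n)) := by
  induction n with
  | zero => exact not_isZero_pow R hM 0
  | succ n ih => exact not_isZero_tensor R ih hM

lemma finrank_tp (M : C) (n : ℕ) :
    Module.finrank K (R.H.obj (tp M n)) = Module.finrank K (R.H.obj M) ^ n := by
  induction n with
  | zero =>
    rw [pow_zero]
    have e := (Functor.Monoidal.εIso R.H).toLinearEquiv
    rw [← e.finrank_eq]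
    exact Module.finrank_self K
  | succ n ih =>
    have e := (Functor.Monoidal.μIso R.H (tp M n) M).toLinearEquiv
    rw [← e.finrank_eq, pow_succ, ← ih]
    exact Module.finrank_tensorProduct (R := K) (M := R.H.obj (tp M n)) (M' := R.H.obj M)

theorem main (hU : UnitQ C) (M : C) : List.TFAE [R.CPlus M,
    ∃ f : M ⟶ M, zdeg hU f = Module.finrank K (R.H.obj M),
    ∃ (n : ℕ) (f : tp M (n + 1) ⟶ tp M (n + 1)),
      Module.finrank K (R.H.obj M) ^ (n + 1) ≤ zdeg hU f + 1] := by
  have := R_charZero R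
  tfae_have 1 → 2 := zdeg_of_cplus R hU
  tfae_have 2 → 1 := by
    rintro ⟨f, hf⟩
    exact cplus_of_zdeg R hU f (by rw [hf]; exact Nat.le_succ _)
  tfae_have 1 → 3 := by
    intro h
    obtain ⟨f, hf⟩ := zdeg_of_cplus R hU (cplus_tp R h 1)
    refine ⟨0, f, ?_⟩
    rw [hf, finrank_tp]
    exact Nat.le_succ _
  tfae_have 3 → 1 := by
    rintro ⟨n, f, hf⟩
    by_cases h0 : IsZero (R.H.obj M)
    · exact cplus_of_isZero R M h0
    · have h1 : R.CPlus (tp M (n + 1)) := cplus_of_zdeg R hU f (by rw [finrank_tp]; exact hf)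
      exact cplus_of_tensor R (not_isZero_tp R h0 n) (cplus_braid R h1)
  tfae_finish

end Pool.Agent.R911.Zd
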