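import Mathlib

set_option autoImplicit false

/-!
# The logarithmic derivative of the reversed characteristic polynomial
-/

open Polynomial Matrix

namespace Pool.Agent.R911.Zd

variable {K : Type*} [Field K]

section

variable {n : Type*} [Fintype n] [DecidableEq n] (M : Matrix n n K)

/-- The power series with matrix coefficients `∑ t ^ k M ^ k`. -/
noncomputable def geo : Matrix n n (PowerSeries K) :=
  fun i j => PowerSeries.mk fun k => (M ^ k) i j

lemma geo_mul : (1 - (PowerSeries.X : PowerSeries K) • M.map (PowerSeries.C)) * geo M = 1 := by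
  ext i j k
  rw [sub_mul, one_mul, Matrix.smul_mul, Matrix.sub_apply, map_sub, Matrix.smul_apply, smul_eq_mul]
  cases k with
  | zero =>
    rw [PowerSeries.coeff_zero_X_mul, sub_zero]
    simp only [geo, PowerSeries.coeff_mk, pow_zero, Matrix.one_apply]
    split_ifs <;> simp
  | succ k =>
    rw [PowerSeries.coeff_succ_X_mul, Matrix.mul_apply, map_sum]
    simp only [geo, PowerSeries.coeff_mk, Matrix.map_apply, PowerSeries.coeff_C_mul]
    rw [pow_succ', Matrix.mul_apply, sub_self, Matrix.one_apply]
    split_ifs <;> simp [PowerSeries.coeff_one]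

lemma trace_geo (M : Matrix n n K) : Matrix.trace (geo M * M.map PowerSeries.C) =
    PowerSeries.mk fun k => Matrix.trace (M ^ (k + 1)) := by
  ext k
  rw [Matrix.trace, map_sum, PowerSeries.coeff_mk, Matrix.trace]
  refine Finset.sum_congr rfl fun i _ => ?_
  rw [Matrix.diag_apply, Matrix.mul_apply, map_sum, Matrix.diag_apply, pow_succ, Matrix.mul_apply]
  refine Finset.sum_congr rfl fun j _ => ?_
  rw [Matrix.map_apply, PowerSeries.coeff_mul_C]
  simp only [geo, PowerSeries.coeff_mk]

/-- Newton's identities in the form of a logarithmic derivative. -/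
theorem derivative_charpolyRev : ((derivative M.charpolyRev : K[X]) : PowerSeries K) =
    -((PowerSeries.mk fun k => Matrix.trace (M ^ (k + 1))) * (M.charpolyRev : PowerSeries K)) := by
  set c : K →+* PowerSeries K := PowerSeries.C with hc
  set t : PowerSeries K := PowerSeries.X with ht
  set MS : Matrix n n (PowerSeries K) := M.map c with hMS
  set G := geo M with hG
  -- the reversed characteristic polynomial as a power series
  have h1 : (M.charpolyRev : PowerSeries K) = det (1 - t • MS) := by
    rw [← Polynomial.coeToPowerSeries.ringHom_apply, charpolyRev, RingHom.map_det]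
    congr 1
    ext1 i j
    simp only [RingHom.mapMatrix_apply, Matrix.map_apply, Matrix.sub_apply, Matrix.smul_apply,
      smul_eq_mul, map_sub, map_mul, Polynomial.coeToPowerSeries.ringHom_apply,
      Polynomial.coe_X, Polynomial.coe_C, hMS, ht, hc]
    congr 1
    rw [Matrix.one_apply, Matrix.one_apply]
    split_ifs <;> simp
  -- Taylor expansion
  have h2 : ((derivative M.charpolyRev : K[X]) : PowerSeries K) =
      (taylor t (M.charpolyRev.map c)).coeff 1 := by
    rw [taylor_coeff_one, derivative_map, eval_map, hc, ht, Polynomial.eval₂_C_X_eq_coe]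
  have h3 : taylor t (M.charpolyRev.map c) =
      det (1 - (X + C t : (PowerSeries K)[X]) • MS.map C) := by
    have h4 : taylor t (M.charpolyRev.map c) =
        (Polynomial.eval₂RingHom ((C : PowerSeries K →+* (PowerSeries K)[X]).comp c)
          (X + C t)) M.charpolyRev := by
      rw [taylor_apply, Polynomial.comp, eval₂_map]
      rfl
    rw [h4, charpolyRev, RingHom.map_det]
    congr 1
    ext1 i j
    simp only [RingHom.mapMatrix_apply, Matrix.map_apply, Matrix.sub_apply, Matrix.smul_apply,
      smul_eq_mul, map_sub, map_mul, hMS]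
    congr 1
    · rw [Matrix.one_apply, Matrix.one_apply]
      split_ifs <;> simp
    · simp
  have h5 : (1 - (X + C t : (PowerSeries K)[X]) • MS.map C) =
      (1 - t • MS).map C * (1 + (X : (PowerSeries K)[X]) • (-(G * MS)).map C) := by
    have h6 : (1 - t • MS) * (G * MS) = MS := by
      rw [← Matrix.mul_assoc, hG, hMS, ht, hc, geo_mul, Matrix.one_mul]
    have h7 : (1 - t • MS).map C * (-(G * MS)).map C = -(MS.map (C : PowerSeries K → _)) := by
      rw [← Matrix.map_mul, Matrix.mul_neg, h6]
      ext1 i j
      simp
    rw [mul_add, mul_one, Matrix.mul_smul, h7]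
    ext1 i j
    simp only [Matrix.sub_apply, Matrix.smul_apply, Matrix.add_apply, Matrix.map_apply,
      smul_eq_mul, Matrix.neg_apply, map_sub, map_mul]
    have h8 : (1 : Matrix n n (PowerSeries K)[X]) i j = C ((1 : Matrix n n (PowerSeries K)) i j) := by
      rw [Matrix.one_apply, Matrix.one_apply]
      split_ifs <;> simp
    rw [h8]
    ring
  rw [h2, h3, h5, Matrix.det_mul, ← RingHom.mapMatrix_apply, ← RingHom.map_det, coeff_C_mul,
    coeff_det_one_add_X_smul_one, Matrix.trace_neg, h1, hG, hMS, hc, trace_geo]
  ring

end

section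

variable {V : Type*} [AddCommGroup V] [Module K V] [Module.Finite K V]

theorem derivative_reverse_charpoly (A : Module.End K V) :
    ((derivative (A.charpoly.reverse) : K[X]) : PowerSeries K) =
    -((PowerSeries.mk fun k => LinearMap.trace K V (A ^ (k + 1))) *
      (A.charpoly.reverse : PowerSeries K)) := by
  let b := Module.finBasis K V
  have h1 : A.charpoly = (LinearMap.toMatrix b b A).charpoly := (LinearMap.charpoly_toMatrix A b).symm
  rw [h1, Matrix.reverse_charpoly, derivative_charpolyRev]
  congr 3
  ext k
  rw [LinearMap.trace_eq_matrix_trace K b, LinearMap.toMatrix_pow]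

end

end Pool.Agent.R911.Zd
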