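import Pool.Agent.R911.Zd.Newton
import Pool.Agent.R911.Zd.Defs

set_option autoImplicit false

/-!
# Zeta functions of sequences of rational numbers
-/

open Polynomial

namespace Pool.Agent.R911.Zd

section

variable {F : Type*} [Field F] [CharZero F]

/-- Power series with constant term `1` and with the same logarithmic derivative are equal. -/
lemma eq_of_log {a b : PowerSeries F} (ha : PowerSeries.constantCoeff a = 1)
    (hb : PowerSeries.constantCoeff b = 1)
    (h : PowerSeries.derivative F a * b = a * PowerSeries.derivative F b) : a = b := by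
  have hb0 : PowerSeries.constantCoeff b ≠ 0 := by rw [hb]; exact one_ne_zero
  have h1 : a * b⁻¹ = 1 := by
    apply PowerSeries.derivative.ext
    · rw [Derivation.leibniz, PowerSeries.derivative_inv', PowerSeries.derivative_one]
      have h2 : b * b⁻¹ = 1 := PowerSeries.mul_inv_cancel b hb0
      have h3 : PowerSeries.derivative F a * b⁻¹ = a * PowerSeries.derivative F b * b⁻¹ ^ 2 := by
        calc PowerSeries.derivative F a * b⁻¹ = PowerSeries.derivative F a * (b * b⁻¹) * b⁻¹ := by
              rw [h2, mul_one]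
          _ = (PowerSeries.derivative F a * b) * b⁻¹ ^ 2 := by ring
          _ = _ := by rw [h]
      simp only [smul_eq_mul]
      rw [mul_comm b⁻¹, h3]
      ring
    · rw [map_mul, PowerSeries.constantCoeff_inv, ha, hb, map_one]
      simp
  calc a = a * (b⁻¹ * b) := by rw [PowerSeries.inv_mul_cancel b hb0, mul_one]
    _ = (a * b⁻¹) * b := by ring
    _ = b := by rw [h1, one_mul]

/-- The relation of the logarithmic derivative over a field `F`. -/
def LogRel (N : PowerSeries F) (P Q : F[X]) : Prop :=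
  P.coeff 0 = 1 ∧ Q.coeff 0 = 1 ∧
    ((derivative P * Q - P * derivative Q : F[X]) : PowerSeries F) =
      N * ((P * Q : F[X]) : PowerSeries F)

lemma LogRel.unique {N : PowerSeries F} {P Q P' Q' : F[X]} (h : LogRel N P Q)
    (h' : LogRel N P' Q') : P * Q' = Q * P' := by
  apply Polynomial.coe_injective F
  obtain ⟨h1, h2, h3⟩ := h
  obtain ⟨h1', h2', h3'⟩ := h'
  apply eq_of_log
  · rw [Polynomial.coe_mul, map_mul, Polynomial.constantCoeff_coe, Polynomial.constantCoeff_coe,
      h1, h2', one_mul]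
  · rw [Polynomial.coe_mul, map_mul, Polynomial.constantCoeff_coe, Polynomial.constantCoeff_coe,
      h2, h1', one_mul]
  · simp only [Polynomial.coe_mul, Polynomial.coe_sub] at h3 h3' ⊢
    simp only [Derivation.leibniz, smul_eq_mul, PowerSeries.derivative_coe]
    linear_combination (P' : PowerSeries F) * (Q' : PowerSeries F) * h3 -
      (P : PowerSeries F) * (Q : PowerSeries F) * h3'

lemma LogRel.symm_mul {N : PowerSeries F} {P Q s : F[X]} (h : LogRel N (P * s) (Q * s)) (hs : s.coeff 0 = 1) :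
    LogRel N P Q := by
  obtain ⟨h1, h2, h3⟩ := h
  rw [Polynomial.mul_coeff_zero, hs, mul_one] at h1 h2
  refine ⟨h1, h2, ?_⟩
  have hs0 : (s : PowerSeries F) ≠ 0 := by
    intro h0
    have h4 := congrArg PowerSeries.constantCoeff h0
    rw [Polynomial.constantCoeff_coe, hs, map_zero] at h4
    exact one_ne_zero h4
  apply mul_left_cancel₀ (pow_ne_zero 2 hs0)
  simp only [Polynomial.coe_mul, Polynomial.coe_sub, Polynomial.coe_add, derivative_mul] at h3 ⊢
  linear_combination h3

end

lemma isZeta_iff {N : ℕ → ℚ} {P Q : ℚ[X]} :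
    IsZeta N P Q ↔ LogRel (PowerSeries.mk fun k => N (k + 1)) P Q := Iff.rfl

/-- The base change of a zeta function. -/
lemma IsZeta.map {K : Type*} [Field K] [CharZero K] {N : ℕ → ℚ} {P Q : ℚ[X]} (h : IsZeta N P Q) :
    LogRel (PowerSeries.mk fun k => ((N (k + 1) : ℚ) : K)) (P.map (algebraMap ℚ K))
      (Q.map (algebraMap ℚ K)) := by
  obtain ⟨h1, h2, h3⟩ := h
  refine ⟨by rw [coeff_map, h1, map_one], by rw [coeff_map, h2, map_one], ?_⟩
  have h4 := congrArg (PowerSeries.map (algebraMap ℚ K)) h3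
  rw [map_mul] at h4
  have h5 : ∀ p : ℚ[X], PowerSeries.map (algebraMap ℚ K) (p : PowerSeries ℚ) =
      ((p.map (algebraMap ℚ K) : K[X]) : PowerSeries K) := by
    intro p
    ext k
    simp
  rw [h5, h5] at h4
  rw [← Polynomial.map_mul, derivative_map, derivative_map, ← Polynomial.map_mul,
    ← Polynomial.map_mul, ← Polynomial.map_sub, h4]
  have h6 : PowerSeries.map (algebraMap ℚ K) (PowerSeries.mk fun k => N (k + 1)) =
      PowerSeries.mk fun k => ((N (k + 1) : ℚ) : K) := by
    ext k
    simp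
  rw [h6]

/-- A pair of polynomials can be divided by the greatest common divisor. -/
lemma exists_coprime {N : ℕ → ℚ} {P Q : ℚ[X]} (h : IsZeta N P Q) :
    ∃ P' Q' : ℚ[X], IsZeta N P' Q' ∧ IsCoprime P' Q' ∧ P'.natDegree + Q'.natDegree ≤
      P.natDegree + Q.natDegree := by
  classical
  have hP0 : P ≠ 0 := by
    rintro rfl
    have := h.1
    simp at this
  have hQ0 : Q ≠ 0 := by
    rintro rfl
    have := h.2.1
    simp at this
  obtain ⟨P1, Q1, hc, hP, hQ⟩ : ∃ P1 Q1 : ℚ[X], IsCoprime P1 Q1 ∧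
      P = P1 * EuclideanDomain.gcd P Q ∧ Q = Q1 * EuclideanDomain.gcd P Q := by
    obtain ⟨a, ha⟩ := EuclideanDomain.gcd_dvd_left P Q
    obtain ⟨b, hb⟩ := EuclideanDomain.gcd_dvd_right P Q
    have hg : EuclideanDomain.gcd P Q ≠ 0 := by
      intro h0
      rw [h0, zero_mul] at ha
      exact hP0 ha
    refine ⟨a, b, ?_, by rw [mul_comm]; exact ha, by rw [mul_comm]; exact hb⟩
    refine ⟨EuclideanDomain.gcdA P Q, EuclideanDomain.gcdB P Q, ?_⟩
    apply mul_left_cancel₀ hg
    have h1 := EuclideanDomain.gcd_eq_gcd_ab P Q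
    calc EuclideanDomain.gcd P Q * (EuclideanDomain.gcdA P Q * a + EuclideanDomain.gcdB P Q * b)
        = (EuclideanDomain.gcd P Q * a) * EuclideanDomain.gcdA P Q +
          (EuclideanDomain.gcd P Q * b) * EuclideanDomain.gcdB P Q := by ring
      _ = P * EuclideanDomain.gcdA P Q + Q * EuclideanDomain.gcdB P Q := by rw [← ha, ← hb]
      _ = EuclideanDomain.gcd P Q * 1 := by rw [mul_one]; exact h1.symm
  set g := EuclideanDomain.gcd P Q with hg
  have hg0 : g.coeff 0 ≠ 0 := by
    intro h0
    have h1 := h.1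
    rw [hP, mul_coeff_zero, h0, mul_zero] at h1
    exact zero_ne_one h1
  have hg1 : g ≠ 0 := by
    rintro h0
    rw [h0] at hg0
    simp at hg0
  have hP1 : P1 ≠ 0 := by
    rintro rfl
    exact hP0 (by rw [hP, zero_mul])
  have hQ1 : Q1 ≠ 0 := by
    rintro rfl
    exact hQ0 (by rw [hQ, zero_mul])
  set c : ℚ := g.coeff 0 with hcdef
  refine ⟨P1 * C c, Q1 * C c, ?_, ?_, ?_⟩
  · rw [isZeta_iff]
    apply LogRel.symm_mul (s := g * C c⁻¹)
    · have h2 : P1 * C c * (g * C c⁻¹) = P := by
        calc P1 * C c * (g * C c⁻¹) = P1 * g * (C c * C c⁻¹) := by ring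
          _ = P := by rw [← C_mul, mul_inv_cancel₀ hg0, C_1, mul_one, ← hP]
      have h3 : Q1 * C c * (g * C c⁻¹) = Q := by
        calc Q1 * C c * (g * C c⁻¹) = Q1 * g * (C c * C c⁻¹) := by ring
          _ = Q := by rw [← C_mul, mul_inv_cancel₀ hg0, C_1, mul_one, ← hQ]
      rw [h2, h3]
      exact h
    · rw [mul_coeff_zero, coeff_C_zero, ← hcdef, mul_inv_cancel₀ hg0]
  · have hu : IsUnit (C c : ℚ[X]) := isUnit_C.mpr (isUnit_iff_ne_zero.mpr hg0)
    exact (isCoprime_mul_unit_right hu P1 Q1).mpr hc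
  · have h4 : P.natDegree = P1.natDegree + g.natDegree := by
      conv_lhs => rw [hP]
      exact natDegree_mul hP1 hg1
    have h5 : Q.natDegree = Q1.natDegree + g.natDegree := by
      conv_lhs => rw [hQ]
      exact natDegree_mul hQ1 hg1
    rw [natDegree_mul_C hg0, natDegree_mul_C hg0]
    omega

/-- The zeta degree is the sum of the degrees of a coprime representation. -/
lemma zetaDegree_eq {N : ℕ → ℚ} {P Q : ℚ[X]} (h : IsZeta N P Q) (hc : IsCoprime P Q) :
    zetaDegree N = P.natDegree + Q.natDegree := by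
  apply le_antisymm
  · exact Nat.sInf_le ⟨P, Q, h, rfl⟩
  · unfold zetaDegree
    refine le_csInf ⟨_, P, Q, h, rfl⟩ ?_
    rintro d ⟨P', Q', h', rfl⟩
    have h1 : P * Q' = Q * P' := LogRel.unique h h'
    have hP : P ∣ P' := hc.dvd_of_dvd_mul_left (Dvd.intro _ h1)
    have hQ : Q ∣ Q' := hc.symm.dvd_of_dvd_mul_left (Dvd.intro _ h1.symm)
    have hP0 : P' ≠ 0 := by
      rintro rfl
      have := h'.1
      simp at this
    have hQ0 : Q' ≠ 0 := by
      rintro rfl
      have := h'.2.1
      simp at this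
    exact Nat.add_le_add (natDegree_le_of_dvd hP hP0) (natDegree_le_of_dvd hQ hQ0)

end Pool.Agent.R911.Zd
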